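import Pool.Agent.helper40.TW.SpecG
import Pool.Agent.helper13.LD.E3

/-!
# Project TW, block G, row EXP: the local expansion
-/

set_option autoImplicit false

open Complex MeasureTheory Metric
open scoped ComplexConjugate ArithmeticFunction.vonMangoldt

namespace Pool.Agent.TWG

open Pool.Agent.helper6.LD (wt)
open Pool.Agent.helper85.BVP (ex)
open Pool.Agent.TW (Win Pw)

theorem EXP_log_sq {x : ℝ} (hx : 1 ≤ x) : Real.log x ^ 2 ≤ 4 * x := by
  have h0 : 0 ≤ Real.log x := Real.log_nonneg hx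
  have hx0 : 0 ≤ x := by linarith
  have h1 : Real.log (√x) ≤ √x - 1 := Real.log_le_sub_one_of_pos (Real.sqrt_pos.mpr (by linarith))
  rw [Real.log_sqrt hx0] at h1
  have h2 : Real.log x ≤ 2 * √x := by linarith
  calc Real.log x ^ 2 ≤ (2 * √x) ^ 2 := pow_le_pow_left₀ h0 h2 2
    _ = 4 * x := by rw [mul_pow, Real.sq_sqrt hx0]; ring

/-- **EXP** -/
theorem EXP (hZFI : ZFI_stmt) (hGRO : GRO_stmt) (hLOW : LOW_stmt) (hSER : SER_stmt) :
    EXP_stmt := by
  intro R hR hR38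
  obtain ⟨C1, hC1, hexp⟩ := Pool.Agent.helper6.LD.expansion R (1 / 2) hR (by linarith)
  obtain ⟨Cg, hCg, hgro⟩ := hGRO
  obtain ⟨c0, hc0, hlow⟩ := hLOW
  obtain ⟨M₁, hM₁⟩ := exists_nat_ge (16 * Cg / c0)
  refine ⟨11 * C1, max 3 M₁, by positivity, le_max_left _ _, ?_⟩
  intro M hM q χ hadm r v k hr1 hr2 hv hk
  obtain ⟨hq2, hqM, hχ⟩ := hadm
  have hM3 : 3 ≤ M := le_trans (le_max_left _ _) hM
  have hM3r : (3 : ℝ) ≤ M := by exact_mod_cast hM3
  have hM0 : (0 : ℝ) < M := by linarith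
  have hM1 : (1 : ℝ) ≤ M := by linarith
  have hMM₁ : (M₁ : ℝ) ≤ M := by exact_mod_cast le_trans (le_max_right _ _) hM
  have hMC : 16 * Cg ≤ c0 * M := by
    have h := le_trans hM₁ hMM₁
    rw [div_le_iff₀ hc0] at h
    linarith
  have hlog1 : 1 ≤ Real.log M := by
    rw [Real.le_log_iff_exp_le hM0]
    exact le_trans (le_of_lt Real.exp_one_lt_three) hM3r
  have hlog0 : 0 < Real.log M := by linarith
  have hr0 : 0 < r := lt_of_lt_of_le (by positivity) hr1
  obtain ⟨hdiff, hne, _, hZS, _, _, _⟩ := hZFI q χ hq2 hχ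
  have hcre : (sp r v).re = 1 + r := by simp [sp]
  have hcim : (sp r v).im = v := by simp [sp]
  have hfc : LL χ (sp r v) ≠ 0 := hne _ (by rw [hcre]; linarith)
  have hlowc := hlow q χ (by omega) r v hr0 (by linarith)
  have hfclow : c0 / (4 * M) ≤ ‖LL χ (sp r v)‖ := by
    refine le_trans ?_ hlowc
    have h1 : 1 / (4 * (M : ℝ)) ≤ r := by
      refine le_trans ?_ hr1
      exact one_div_le_one_div_of_le (by positivity) (EXP_log_sq hM1)
    calc c0 / (4 * M) = c0 * (1 / (4 * (M : ℝ))) := by ring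
      _ ≤ c0 * r := mul_le_mul_of_nonneg_left h1 hc0.le
  have hcnorm : ‖sp r v‖ ≤ 5 / 4 + (M : ℝ) ^ 8 := by
    calc ‖sp r v‖ ≤ |(sp r v).re| + |(sp r v).im| := Complex.norm_le_abs_re_add_abs_im _
      _ ≤ 5 / 4 + (M : ℝ) ^ 8 := by
        rw [hcre, hcim, abs_of_pos (by linarith)]
        linarith
  have hM8 : (1 : ℝ) ≤ (M : ℝ) ^ 8 := one_le_pow₀ hM1
  have hexpB : Real.exp (11 * Real.log M) = (M : ℝ) ^ 11 := by
    rw [mul_comm, Real.exp_mul, Real.exp_log hM0]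
    norm_cast
  have hbound : ∀ z ∈ closedBall (sp r v) (1 / 2),
      ‖LL χ z‖ ≤ Real.exp (11 * Real.log M) * ‖LL χ (sp r v)‖ := by
    intro z hz
    rw [mem_closedBall, dist_eq_norm] at hz
    have hzre : 1 / 2 ≤ z.re := by
      have h1 : |(z - sp r v).re| ≤ 1 / 2 := le_trans (Complex.abs_re_le_norm _) hz
      rw [Complex.sub_re, hcre] at h1
      have h2 := (abs_le.mp h1).1
      linarith
    have hznorm : ‖z‖ ≤ 7 / 4 + (M : ℝ) ^ 8 := by
      have h1 : ‖z‖ ≤ ‖z - sp r v‖ + ‖sp r v‖ := by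
        have := norm_add_le (z - sp r v) (sp r v)
        rwa [sub_add_cancel] at this
      linarith
    have h1 := hgro q χ hq2 hχ z hzre
    have hqr : (q : ℝ) ≤ M := by exact_mod_cast hqM
    calc ‖LL χ z‖ ≤ Cg * q * (1 + ‖z‖) := h1
      _ ≤ Cg * M * (4 * (M : ℝ) ^ 8) := by
        apply mul_le_mul _ _ (by positivity) (by positivity)
        · exact mul_le_mul_of_nonneg_left hqr hCg.le
        · linarith
      _ = (16 * Cg) * ((M : ℝ) ^ 9 / 4) := by ring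
      _ ≤ (c0 * M) * ((M : ℝ) ^ 9 / 4) := mul_le_mul_of_nonneg_right hMC (by positivity)
      _ = (M : ℝ) ^ 11 * (c0 / (4 * M)) := by
        field_simp
      _ ≤ (M : ℝ) ^ 11 * ‖LL χ (sp r v)‖ := mul_le_mul_of_nonneg_left hfclow (by positivity)
      _ = Real.exp (11 * Real.log M) * ‖LL χ (sp r v)‖ := by rw [hexpB]
  have hmain := hexp (LL χ) (sp r v) (11 * Real.log M) k hk (by linarith)
    (fun z _ => hdiff.analyticAt z) hfc hbound
  obtain ⟨_, _, _, _, _, hser⟩ := hSER q χ k r (by omega) hk hr0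
  rw [hser v] at hmain
  have hset : {ρ : ℂ | ρ ∈ closedBall (sp r v) R ∧ LL χ ρ = 0} =
      (↑(ZS χ (closedBall (sp r v) R)) : Set ℂ) := by
    ext ρ
    rw [Finset.mem_coe, hZS _ isBounded_closedBall ρ]
    rfl
  rw [hset, finsum_mem_coe_finset] at hmain
  have hsum : ∑ ρ ∈ ZS χ (closedBall (sp r v) R),
      (analyticOrderNatAt (LL χ) ρ : ℂ) * ((ρ - sp r v) ^ k)⁻¹ =
      (-1) ^ k * ∑ ρ ∈ ZS χ (closedBall (sp r v) R), (mz χ ρ : ℂ) * ((sp r v - ρ) ^ k)⁻¹ := by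
    rw [Finset.mul_sum]
    refine Finset.sum_congr rfl fun ρ _ => ?_
    have h1 : ((ρ - sp r v) ^ k)⁻¹ = (-1) ^ k * ((sp r v - ρ) ^ k)⁻¹ := by
      rw [← neg_sub (sp r v) ρ, neg_pow, mul_inv, ← inv_pow, inv_neg, inv_one]
    rw [h1]
    unfold mz
    ring
  rw [hsum, ← mul_add, norm_mul, norm_pow, norm_neg, norm_one, one_pow, one_mul] at hmain
  refine le_trans hmain (le_of_eq ?_)
  ring

end Pool.Agent.TWG
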